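import Pool.Agent.helper56.NR.Spec

set_option autoImplicit false

open Complex Metric Set Filter Topology MeasureTheory Pool.Agent.helper98.ILF

open EX (ff)

noncomputable section

namespace NR

theorem KOB_succ (n : ℕ) (c : ℂ) (s : ℕ) (u : ℂ) :
    (ff n c)^[s + 1] u = ((ff n c)^[s] u) ^ n + c := by
  rw [Function.iterate_succ_apply']
  rfl

theorem KOB_deriv (n : ℕ) (c : ℂ) (hn : 2 ≤ n) (s : ℕ) (x : ℂ) (h0 : (ff n c)^[s] x = 0) :
    deriv ((ff n c)^[s + 1]) x = 0 := by
  have h1 : ((ff n c)^[s + 1]) = fun y => ((ff n c)^[s] y) ^ n + c := by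
    funext y
    exact KOB_succ n c s y
  have hd : DifferentiableAt ℂ ((ff n c)^[s]) x := (ffi_diff n c s) x
  have h2 : HasDerivAt (fun y => ((ff n c)^[s] y) ^ n + c)
      ((n : ℂ) * ((ff n c)^[s] x) ^ (n - 1) * deriv ((ff n c)^[s]) x) x :=
    (hd.hasDerivAt.pow n).add_const c
  rw [h1, h2.deriv, h0, zero_pow (by omega)]
  ring

theorem KOB (hKO0 : V3.KO0_stmt) (hKO1 : V3.KO1_stmt) (hKO3 : V3.KO3_stmt) : KOB_stmt := by
  obtain ⟨K₁, hK₁, h1⟩ := hKO1
  obtain ⟨K₃, hK₃, h3⟩ := hKO3 (1 / 2) (by norm_num) (by norm_num)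
  have hK₁0 : (0 : ℝ) < K₁ := by linarith
  have hK₃0 : (0 : ℝ) < K₃ := by linarith
  have hKge : K₁ ≤ 4 * K₁ ^ 2 * K₃ := by
    have ha : 1 ≤ K₁ * K₃ := by nlinarith
    nlinarith
  refine ⟨4 * K₁ ^ 2 * K₃, le_trans hK₁ hKge, ?_⟩
  intro n c m G l hn hl hG hGc
  set b : ℝ := l * ‖deriv G (vv n c m)‖ with hb
  have hbnn : 0 ≤ b := by positivity
  have hKpos : 0 < 4 * K₁ ^ 2 * K₃ := by positivity
  have himg : ball c (b / K₁) ⊆ G '' ball (vv n c m) l := by
    have := h1 G (vv n c m) l hl hG.1 hG.inj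
    rwa [hGc] at this
  have hle : b / (4 * K₁ ^ 2 * K₃) ≤ b / K₁ := by
    apply div_le_div_of_nonneg_left hbnn hK₁0 hKge
  have hmem : ∀ u : ℂ, ‖u‖ ^ n < b / (4 * K₁ ^ 2 * K₃) → ff n c u ∈ ball c (b / K₁) := by
    intro u hu
    rw [mem_ball, dist_eq_norm]
    have : ff n c u - c = u ^ n := by
      unfold ff
      ring
    rw [this, norm_pow]
    linarith
  refine ⟨?_, ?_⟩
  · intro u hu
    obtain ⟨w, hw, hwu⟩ := himg (hmem u hu)
    rw [Function.iterate_succ_apply, ← hwu, hG.2 w hw]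
    exact hw
  · intro s hs1 hsm u hu
    have hbpos : 0 < b := by
      have h5 : 0 < b / (4 * K₁ ^ 2 * K₃) := lt_of_le_of_lt (by positivity) hu
      by_contra hcon
      have : b = 0 := le_antisymm (not_lt.1 hcon) hbnn
      rw [this] at h5
      simp at h5
    have hr : 0 < b / K₁ := by positivity
    have hFd : DifferentiableOn ℂ ((ff n c)^[s]) (ball c (b / K₁)) :=
      (ffi_diff n c s).differentiableOn
    have hFinj : InjOn ((ff n c)^[s]) (ball c (b / K₁)) := by
      intro x hx y hy hxy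
      obtain ⟨w1, hw1, rfl⟩ := himg hx
      obtain ⟨w2, hw2, rfl⟩ := himg hy
      have e1 : (ff n c)^[m - s] ((ff n c)^[s] (G w1)) = w1 := by
        rw [← Function.iterate_add_apply, Nat.sub_add_cancel hsm]
        exact hG.2 w1 hw1
      have e2 : (ff n c)^[m - s] ((ff n c)^[s] (G w2)) = w2 := by
        rw [← Function.iterate_add_apply, Nat.sub_add_cancel hsm]
        exact hG.2 w2 hw2
      rw [hxy, e2] at e1
      rw [e1]
    have hFne : c ∉ (ff n c)^[s] '' ball c (b / K₁) := by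
      rintro ⟨x, hx, hxc⟩
      obtain ⟨t, rfl⟩ : ∃ t, s = t + 1 := ⟨s - 1, by omega⟩
      rw [KOB_succ] at hxc
      have h0 : (ff n c)^[t] x = 0 := by
        have h7 : ((ff n c)^[t] x) ^ n = 0 := by
          linear_combination hxc
        exact pow_eq_zero_iff (by omega) |>.1 h7
      exact hKO0 _ _ isOpen_ball hFd hFinj x hx (KOB_deriv n c hn t x h0)
    have hFc : (ff n c)^[s] c = vv n c s := rfl
    have hq := h1 _ c (b / K₁) hr hFd hFinj
    rw [hFc] at hq
    have hlow : b / K₁ * ‖deriv ((ff n c)^[s]) c‖ / K₁ ≤ ‖vv n c s - c‖ := by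
      by_contra hcon
      push Not at hcon
      apply hFne
      apply hq
      rw [mem_ball, dist_comm, dist_eq_norm]
      exact hcon
    have hD : ‖deriv ((ff n c)^[s]) c‖ * b ≤ K₁ ^ 2 * ‖vv n c s - c‖ := by
      have e : b / K₁ * ‖deriv ((ff n c)^[s]) c‖ / K₁ = ‖deriv ((ff n c)^[s]) c‖ * b / K₁ ^ 2 := by
        field_simp
      rw [e, div_le_iff₀ (by positivity)] at hlow
      linarith
    have hx : ff n c u ∈ ball c ((1 - 1 / 2) * (b / K₁)) := by
      rw [mem_ball, dist_eq_norm]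
      have e1 : ff n c u - c = u ^ n := by
        unfold ff
        ring
      rw [e1, norm_pow]
      refine lt_of_lt_of_le hu ?_
      have e2 : (1 - 1 / 2) * (b / K₁) = b / (2 * K₁) := by
        field_simp
        ring
      rw [e2]
      apply div_le_div_of_nonneg_left hbnn (by positivity)
      have ha : 1 ≤ K₁ * K₃ := by nlinarith
      nlinarith
    have hxn : ‖ff n c u - c‖ < b / (4 * K₁ ^ 2 * K₃) := by
      have e1 : ff n c u - c = u ^ n := by
        unfold ff
        ring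
      rw [e1, norm_pow]
      exact hu
    have hdist := ((h3 _ c (b / K₁) hr hFd hFinj).2 _ hx).2.2.1
    rw [hFc] at hdist
    have hfin : ‖(ff n c)^[s] (ff n c u) - vv n c s‖ ≤ 1 / 4 * ‖vv n c s - c‖ := by
      refine le_trans hdist ?_
      have e3 : ‖ff n c u - c‖ * (4 * K₁ ^ 2 * K₃) ≤ b := by
        have := (lt_div_iff₀ hKpos).1 hxn
        linarith
      have e4 : (K₃ * ‖ff n c u - c‖ * ‖deriv ((ff n c)^[s]) c‖) * (4 * K₁ ^ 2) ≤
          b * ‖deriv ((ff n c)^[s]) c‖ := by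
        have := mul_le_mul_of_nonneg_right e3 (norm_nonneg (deriv ((ff n c)^[s]) c))
        linarith
      have e5 : (K₃ * ‖ff n c u - c‖ * ‖deriv ((ff n c)^[s]) c‖) * (4 * K₁ ^ 2) ≤
          (1 / 4 * ‖vv n c s - c‖) * (4 * K₁ ^ 2) := by
        linarith
      exact le_of_mul_le_mul_right e5 (by positivity)
    have e6 : ((ff n c)^[s] u) ^ n = (ff n c)^[s] (ff n c u) - c := by
      rw [← Function.iterate_succ_apply, KOB_succ]
      ring
    rw [← norm_pow, e6]
    have e7 : (ff n c)^[s] (ff n c u) - c = ((ff n c)^[s] (ff n c u) - vv n c s) + (vv n c s - c) := by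
      ring
    rw [e7]
    have e8 := norm_add_le ((ff n c)^[s] (ff n c u) - vv n c s) (vv n c s - c)
    have e9 := norm_nonneg (vv n c s - c)
    linarith

end NR
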