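import Pool.Agent.helper84.NR.Spec

/-!
# Project NR (MP_133bfc_co): row IDX
-/

set_option autoImplicit false

namespace Pool.Agent.helper84.NR

open scoped Classical
open Finset

theorem IDX_iff {V F : Type} (M : Cyc V F) (f : F) (i j : ℕ) :
    M.bd f i = M.bd f j ↔ i ≡ j [MOD M.len f] := by
  have hper : Function.Periodic (M.bd f) (M.len f) := fun k => M.per f k
  have hn : 0 < M.len f := lt_of_lt_of_le (by norm_num) (M.three f)
  constructor
  · intro h
    rw [← hper.map_mod_nat i, ← hper.map_mod_nat j] at h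
    exact M.inj f _ _ (Nat.mod_lt _ hn) (Nat.mod_lt _ hn) h
  · intro h
    rw [← hper.map_mod_nat i, ← hper.map_mod_nat j, h]

theorem IDX_rep (n k0 k : ℕ) (hn : 0 < n) : ∃ a, a < n ∧ k0 + a ≡ k [MOD n] := by
  refine ⟨(k + (n - 1) * k0) % n, Nat.mod_lt _ hn, ?_⟩
  obtain ⟨m, rfl⟩ : ∃ m, n = m + 1 := ⟨n - 1, by omega⟩
  rw [Nat.add_sub_cancel]
  have h1 : (k + m * k0) % (m + 1) ≡ k + m * k0 [MOD (m + 1)] := Nat.mod_modEq _ _
  have h2 : k0 + (k + m * k0) % (m + 1) ≡ k0 + (k + m * k0) [MOD (m + 1)] := h1.add_left k0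
  refine h2.trans ?_
  have h3 : k0 + (k + m * k0) = k + (m + 1) * k0 := by ring
  rw [h3]
  show (k + (m + 1) * k0) % (m + 1) = k % (m + 1)
  rw [Nat.add_mul_mod_self_left]

theorem IDX : IDX_stmt := by
  intro V F M f k0
  have h3 := M.three f
  have hn : 0 < M.len f := by omega
  refine ⟨?_, ?_, ?_, ?_, M.per f k0⟩
  · intro a b ha hb h
    rw [IDX_iff] at h
    exact Nat.ModEq.eq_of_lt_of_lt (Nat.ModEq.add_left_cancel' k0 h) ha hb
  · rintro v ⟨k, hk⟩
    obtain ⟨a, ha, hak⟩ := IDX_rep (M.len f) k0 k hn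
    exact ⟨a, ha, ((IDX_iff M f _ _).mpr hak).trans hk⟩
  · rintro e ⟨k, hk⟩
    obtain ⟨a, ha, hak⟩ := IDX_rep (M.len f) k0 k hn
    refine ⟨a, ha, ?_⟩
    rw [hk, (IDX_iff M f _ _).mpr hak, (IDX_iff M f _ _).mpr (hak.add_right 1)]
  · rintro a b hab hb ⟨k, hk⟩
    rw [Sym2.eq_iff, IDX_iff, IDX_iff, IDX_iff, IDX_iff] at hk
    rcases hk with ⟨hk1, hk2⟩ | ⟨hk1, hk2⟩
    · left
      have h4 : k0 + b ≡ k0 + (a + 1) [MOD M.len f] := by
        rw [← Nat.add_assoc]
        exact hk2.trans (hk1.symm.add_right 1)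
      have h5 : b ≡ a + 1 [MOD M.len f] := Nat.ModEq.add_left_cancel' k0 h4
      exact Nat.ModEq.eq_of_lt_of_lt h5 hb (by omega)
    · right
      have h4 : k0 + a ≡ k0 + (b + 1) [MOD M.len f] := by
        rw [← Nat.add_assoc]
        exact hk1.trans (hk2.symm.add_right 1)
      have h5 : a ≡ b + 1 [MOD M.len f] := Nat.ModEq.add_left_cancel' k0 h4
      by_cases hb1 : b + 1 < M.len f
      · have := Nat.ModEq.eq_of_lt_of_lt h5 (by omega) hb1
        omega
      · have hb2 : b + 1 = M.len f := by omega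
        have h6 : a ≡ 0 [MOD M.len f] := by
          refine h5.trans ?_
          rw [hb2]
          show M.len f % M.len f = 0 % M.len f
          simp
        have := Nat.ModEq.eq_of_lt_of_lt h6 (by omega) hn
        omega

end Pool.Agent.helper84.NR
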