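import Pool.Agent.helper84.NR.Spec

/-!
# Project NR (MP_133bfc_co): row PAR
-/

set_option autoImplicit false

namespace Pool.Agent.helper84.NR

open scoped Classical
open Finset

theorem PAR_face (h1 : IDX_stmt) {V F : Type} [Fintype V] (M : Cyc V F) (f : F) (v : V) :
    Even (univ.filter (fun e : Sym2 V => v ∈ e ∧ OnE M f e)).card := by
  have h3 := M.three f
  by_cases hv : OnV M f v
  · obtain ⟨k0, hk0⟩ := hv
    obtain ⟨hinj, hvx, hed, -, hlast⟩ := h1 V F M f k0
    obtain ⟨n, hn⟩ : ∃ n, M.len f = n + 1 := ⟨M.len f - 1, by omega⟩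
    have hE : (univ.filter (fun e : Sym2 V => v ∈ e ∧ OnE M f e))
        = {s(v, M.bd f (k0 + 1)), s(v, M.bd f (k0 + n))} := by
      ext e
      simp only [mem_filter, mem_univ, true_and, mem_insert, mem_singleton]
      constructor
      · rintro ⟨hve, hfe⟩
        obtain ⟨a, ha, rfl⟩ := hed e hfe
        rw [Sym2.mem_iff] at hve
        rcases hve with hve | hve
        · have : a = 0 := hinj a 0 ha (by omega) (by rw [← hve, ← hk0, Nat.add_zero])
          left
          rw [this, Nat.add_zero, hk0]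
        · by_cases hlt : a + 1 < M.len f
          · have := hinj (a + 1) 0 hlt (by omega)
              (by rw [← Nat.add_assoc, ← hve, ← hk0, Nat.add_zero])
            omega
          · have ha' : a = n := by omega
            right
            rw [ha'] at hve ⊢
            rw [← hve, Sym2.eq_swap]
      · rintro (rfl | rfl)
        · exact ⟨Sym2.mem_mk_left _ _, k0, by rw [hk0]⟩
        · refine ⟨Sym2.mem_mk_left _ _, k0 + n, ?_⟩
          have : M.bd f (k0 + n + 1) = v := by
            rw [Nat.add_assoc, ← hn, hlast, hk0]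
          rw [this, Sym2.eq_swap]
    rw [hE, card_pair]
    · exact even_two
    · intro h
      rw [Sym2.congr_right] at h
      have := hinj 1 n (by omega) (by omega) h
      omega
  · have hE : (univ.filter (fun e : Sym2 V => v ∈ e ∧ OnE M f e)) = ∅ := by
      rw [filter_eq_empty_iff]
      rintro e _ ⟨hve, k, rfl⟩
      rw [Sym2.mem_iff] at hve
      rcases hve with hve | hve
      · exact hv ⟨k, hve.symm⟩
      · exact hv ⟨k + 1, hve.symm⟩
    rw [hE, card_empty]
    exact Even.zero

theorem PAR_edge {V F : Type} [Fintype F] (M : PMap V F) (S : Set F) (v : V) (e : Sym2 V) :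
    Even ((univ.filter (fun f : F => f ∈ S ∧ v ∈ e ∧ OnE M.toCyc f e)).card +
      if (v ∈ e ∧ (∃ f, OnE M.toCyc f e ∧ f ∈ S) ∧ ∃ g, OnE M.toCyc g e ∧ g ∉ S)
        then 1 else 0) := by
  by_cases hv : v ∈ e
  · by_cases hf : ∃ f, OnE M.toCyc f e
    · obtain ⟨f, hf⟩ := hf
      obtain ⟨g, hgf, hg, hall⟩ := M.two e f hf
      by_cases hfS : f ∈ S
      · by_cases hgS : g ∈ S
        · have h1 : (univ.filter (fun f : F => f ∈ S ∧ v ∈ e ∧ OnE M.toCyc f e)) = {f, g} := by
            ext h
            simp only [mem_filter, mem_univ, true_and, mem_insert, mem_singleton]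
            constructor
            · rintro ⟨_, _, hh⟩
              exact hall _ hh
            · rintro (rfl | rfl)
              · exact ⟨hfS, hv, hf⟩
              · exact ⟨hgS, hv, hg⟩
          have h2 : ¬ (v ∈ e ∧ (∃ f, OnE M.toCyc f e ∧ f ∈ S) ∧
              ∃ g, OnE M.toCyc g e ∧ g ∉ S) := by
            rintro ⟨_, _, h, hh, hhS⟩
            rcases hall h hh with rfl | rfl
            · exact hhS hfS
            · exact hhS hgS
          rw [h1, if_neg h2, card_pair hgf.symm]
          decide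
        · have h1 : (univ.filter (fun f : F => f ∈ S ∧ v ∈ e ∧ OnE M.toCyc f e)) = {f} := by
            ext h
            simp only [mem_filter, mem_univ, true_and, mem_singleton]
            constructor
            · rintro ⟨hS, _, hh⟩
              rcases hall h hh with h' | h'
              · exact h'
              · exact absurd (h' ▸ hS) hgS
            · rintro rfl
              exact ⟨hfS, hv, hf⟩
          have h2 : (v ∈ e ∧ (∃ f, OnE M.toCyc f e ∧ f ∈ S) ∧
              ∃ g, OnE M.toCyc g e ∧ g ∉ S) := ⟨hv, ⟨f, hf, hfS⟩, g, hg, hgS⟩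
          rw [h1, if_pos h2, card_singleton]
          decide
      · by_cases hgS : g ∈ S
        · have h1 : (univ.filter (fun f : F => f ∈ S ∧ v ∈ e ∧ OnE M.toCyc f e)) = {g} := by
            ext h
            simp only [mem_filter, mem_univ, true_and, mem_singleton]
            constructor
            · rintro ⟨hS, _, hh⟩
              rcases hall h hh with h' | h'
              · exact absurd (h' ▸ hS) hfS
              · exact h'
            · rintro rfl
              exact ⟨hgS, hv, hg⟩
          have h2 : (v ∈ e ∧ (∃ f, OnE M.toCyc f e ∧ f ∈ S) ∧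
              ∃ g, OnE M.toCyc g e ∧ g ∉ S) := ⟨hv, ⟨g, hg, hgS⟩, f, hf, hfS⟩
          rw [h1, if_pos h2, card_singleton]
          decide
        · have h1 : (univ.filter (fun f : F => f ∈ S ∧ v ∈ e ∧ OnE M.toCyc f e)) = ∅ := by
            rw [filter_eq_empty_iff]
            rintro h _ ⟨hS, _, hh⟩
            rcases hall h hh with h' | h'
            · exact hfS (h' ▸ hS)
            · exact hgS (h' ▸ hS)
          have h2 : ¬ (v ∈ e ∧ (∃ f, OnE M.toCyc f e ∧ f ∈ S) ∧
              ∃ g, OnE M.toCyc g e ∧ g ∉ S) := by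
            rintro ⟨_, ⟨h, hh, hhS⟩, _⟩
            rcases hall h hh with h' | h'
            · exact hfS (h' ▸ hhS)
            · exact hgS (h' ▸ hhS)
          rw [h1, if_neg h2, card_empty]
          decide
    · have h1 : (univ.filter (fun f : F => f ∈ S ∧ v ∈ e ∧ OnE M.toCyc f e)) = ∅ := by
        rw [filter_eq_empty_iff]
        rintro h _ ⟨_, _, hh⟩
        exact hf ⟨h, hh⟩
      have h2 : ¬ (v ∈ e ∧ (∃ f, OnE M.toCyc f e ∧ f ∈ S) ∧
          ∃ g, OnE M.toCyc g e ∧ g ∉ S) := by
        rintro ⟨_, ⟨h, hh, _⟩, _⟩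
        exact hf ⟨h, hh⟩
      rw [h1, if_neg h2, card_empty]
      decide
  · have h1 : (univ.filter (fun f : F => f ∈ S ∧ v ∈ e ∧ OnE M.toCyc f e)) = ∅ := by
      rw [filter_eq_empty_iff]
      rintro h _ ⟨_, hh, _⟩
      exact hv hh
    have h2 : ¬ (v ∈ e ∧ (∃ f, OnE M.toCyc f e ∧ f ∈ S) ∧
        ∃ g, OnE M.toCyc g e ∧ g ∉ S) := fun h => hv h.1
    rw [h1, if_neg h2, card_empty]
    decide

theorem PAR (h1 : IDX_stmt) : PAR_stmt := by
  intro V F _ _ M S v
  have hA : Even (∑ f ∈ univ.filter (fun f : F => f ∈ S),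
      (univ.filter (fun e : Sym2 V => v ∈ e ∧ OnE M.toCyc f e)).card) :=
    Finset.even_sum _ (fun f _ => PAR_face h1 M.toCyc f v)
  have hB : ∑ f ∈ univ.filter (fun f : F => f ∈ S),
      (univ.filter (fun e : Sym2 V => v ∈ e ∧ OnE M.toCyc f e)).card
      = ∑ e : Sym2 V, (univ.filter (fun f : F => f ∈ S ∧ v ∈ e ∧ OnE M.toCyc f e)).card := by
    simp only [card_filter]
    rw [sum_comm]
    apply sum_congr rfl
    intro e _
    rw [sum_filter]
    apply sum_congr rfl
    intro f _
    by_cases hfS : f ∈ S <;> simp [hfS]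
  rw [hB] at hA
  have hC : Even (∑ e : Sym2 V,
      ((univ.filter (fun f : F => f ∈ S ∧ v ∈ e ∧ OnE M.toCyc f e)).card +
      if (v ∈ e ∧ (∃ f, OnE M.toCyc f e ∧ f ∈ S) ∧ ∃ g, OnE M.toCyc g e ∧ g ∉ S)
        then 1 else 0)) :=
    Finset.even_sum _ (fun e _ => PAR_edge M S v e)
  rw [sum_add_distrib] at hC
  rw [card_filter]
  exact (Nat.even_add.mp hC).mp hA

end Pool.Agent.helper84.NR
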